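import Pool.Agent.N728.QN.All

set_option autoImplicit false

/-!
# Prime values of `x (a x + b y + e) + c` on almost every line `x + y = n`

`f(x, y) = x (a x + b y + e) + c` with `b ≥ 1`, `a ≠ b`, `c ≠ 0`. For almost all `n` for which `f(x, n - x)` is
irreducible and has no fixed prime divisor, the number of `x ≤ T` with `f(x, n - x)` prime is the number predicted by
Hardy and Littlewood, with a constant bounded below, `n / (log n)^C₂ ≤ T ≤ n / (log n)^C₁`; in particular
`n = x + y` with `x, y ≥ 1` and `|f(x, y)|` prime.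

Proof (`Agent/N728/QN`, `Agent/N728/QL`): `f(x, n - x) = u v + c` with `u = x`, `v = (b n + e) + (a - b) u`, and the mean
value theorem of `Agent/N728/QL` for the primes `u v + c` with an arbitrary bounded weight of `v - (a - b) u`: the product
`u v` does not change if a divisor of it is moved from `u` to `v`.
-/

namespace Pool.Agent.Results.MP_0da313_nt.AlmostAllLines

open Finset Filter Topology

/-- The polynomial `f(x, y) = x (a x + b y + e) + c`. -/
def f (a b e c x y : ℤ) : ℤ := x * (a * x + b * y + e) + c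

/-- `g_n(x) = f(x, n - x)` as a polynomial in `x`. -/
noncomputable def g (a b e c n : ℤ) : Polynomial ℤ :=
  Polynomial.C (a - b) * Polynomial.X ^ 2 + Polynomial.C (b * n + e) * Polynomial.X + Polynomial.C c

/-- `g_n` is indeed `f(x, n - x)`. -/
theorem eval_g (a b e c n x : ℤ) : (g a b e c n).eval x = f a b e c x (n - x) := by
  unfold g f
  simp only [Polynomial.eval_add, Polynomial.eval_mul, Polynomial.eval_C, Polynomial.eval_pow, Polynomial.eval_X]
  ring

/-- The conditions of the problem for one `n`: `f(x, n - x)` is irreducible and has no fixed prime divisor. -/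
def Admissible (a b e c n : ℤ) : Prop :=
  Irreducible (g a b e c n) ∧ ∀ p : ℕ, p.Prime → ∃ x : ℤ, ¬ (p : ℤ) ∣ f a b e c x (n - x)

/-- The products which define the constant `C(A, β, c)` of Hardy and Littlewood for `A x² + β x + c`, over the primes
`p ≤ z` (`jacobiSym Δ p` is the Legendre symbol). -/
noncomputable def partialC (A β c : ℤ) (z : ℕ) : ℝ :=
  (if Odd (A + β) then 1 / 2 else 1) *
    (∏ p ∈ (Icc 3 z).filter (fun p : ℕ => p.Prime ∧ (p : ℤ) ∣ A ∧ (p : ℤ) ∣ β), (p : ℝ) / (p - 1)) *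
    ∏ p ∈ (Icc 3 z).filter (fun p : ℕ => p.Prime ∧ ¬ (p : ℤ) ∣ A),
      (1 - (jacobiSym (β ^ 2 - 4 * A * c) p : ℝ) / (p - 1))

/-- `K = C(A, β, c)`: the products over the primes, in increasing order, converge to `K`. -/
def IsC (A β c : ℤ) (K : ℝ) : Prop := Tendsto (partialC A β c) atTop (𝓝 K)

/-- The number of `1 ≤ x ≤ T` with `f(x, n - x)` a (positive) prime. -/
def rep (a b e c n : ℤ) (T : ℕ) : ℕ := ((Icc 1 T).filter (fun x : ℕ => (f a b e c x (n - x)).toNat.Prime)).card

/-- The conclusion for one `n`: the constant exists, is at least `κ`, and the number is as predicted up to the relative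
error `δ`. -/
def Good (a b e c : ℤ) (κ δ : ℝ) (T : ℕ) (n : ℤ) : Prop :=
  ∃ K : ℝ, IsC (a - b) (b * n + e) c K ∧ κ ≤ K ∧
    |(rep a b e c n T : ℝ) - 2 * K * ∑ x ∈ Icc 1 T, 1 / Real.log ((f a b e c x (n - x) : ℤ) : ℝ)| ≤
      δ * (T / Real.log T)

/-- `n = x + y` with `x, y ≥ 1` and `|f(x, y)|` prime. -/
def Represented (a b e c : ℤ) (n : ℕ) : Prop :=
  ∃ x y : ℕ, 1 ≤ x ∧ 1 ≤ y ∧ x + y = n ∧ (f a b e c x y).natAbs.Prime

open Classical in
/-- The number of the `n ≤ N` which satisfy the conditions of the problem and for which one of the two conclusions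
fails. -/
noncomputable def exceptions (a b e c : ℤ) (κ δ : ℝ) (N T : ℕ) : ℕ :=
  ((Icc 1 N).filter (fun n : ℕ => Admissible a b e c n ∧
    ¬ (Represented a b e c n ∧ Good a b e c κ δ T n))).card

/-- **Theorem.** -/
theorem result (a b e c : ℤ) (hb : 1 ≤ b) (hab : a ≠ b) (hc : c ≠ 0) :
    ∃ C₁ : ℕ, ∀ ε : ℝ, 0 < ε → ∃ κ : ℝ, 0 < κ ∧ ∀ δ : ℝ, 0 < δ → ∀ C₂ : ℕ, ∃ N₀ : ℕ, ∀ N : ℕ, N₀ ≤ N → ∀ T : ℕ,
      (N : ℝ) ≤ T * Real.log N ^ C₂ → (T : ℝ) * Real.log N ^ C₁ ≤ N →
      (exceptions a b e c κ δ N T : ℝ) ≤ ε * N := by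
  classical
  obtain ⟨⟨C₁, h1⟩, h2⟩ := Pool.Agent.N728.QN.res a b e c hb hab hc
  refine ⟨C₁, fun ε hε => ?_⟩
  obtain ⟨κ, hκ, h1⟩ := h1 (ε / 2) (by positivity)
  obtain ⟨N₂, h2⟩ := h2 (ε / 2) (by positivity)
  refine ⟨κ, hκ, fun δ hδ C₂ => ?_⟩
  obtain ⟨N₀, h1⟩ := h1 δ hδ C₂
  refine ⟨max N₀ N₂, fun N hN T hT1 hT2 => ?_⟩
  have h3 := h1 N (le_trans (le_max_left _ _) hN) T hT1 hT2
  have h4 := h2 N (le_trans (le_max_right _ _) hN)
  have h5 : (((Icc 1 N).filter (fun n : ℕ => Admissible a b e c n ∧ ¬ Good a b e c κ δ T n)).card : ℝ) ≤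
      ε / 2 * N := by
    refine le_trans (le_of_eq ?_) h3
    congr!
  have h6 : (((Icc 1 N).filter (fun n : ℕ => Admissible a b e c n ∧ ¬ Represented a b e c n)).card : ℝ) ≤
      ε / 2 * N := by
    refine le_trans (le_of_eq ?_) h4
    congr!
  have h7 : exceptions a b e c κ δ N T ≤
      ((Icc 1 N).filter (fun n : ℕ => Admissible a b e c n ∧ ¬ Good a b e c κ δ T n)).card +
      ((Icc 1 N).filter (fun n : ℕ => Admissible a b e c n ∧ ¬ Represented a b e c n)).card := by
    unfold exceptions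
    refine le_trans (card_le_card ?_) (card_union_le _ _)
    intro n hn
    rw [mem_filter] at hn
    rw [mem_union, mem_filter, mem_filter]
    by_cases hg : Good a b e c κ δ T n
    · exact Or.inr ⟨hn.1, hn.2.1, fun hr => hn.2.2 ⟨hr, hg⟩⟩
    · exact Or.inl ⟨hn.1, hn.2.1, hg⟩
  have h8 : (exceptions a b e c κ δ N T : ℝ) ≤
      (((Icc 1 N).filter (fun n : ℕ => Admissible a b e c n ∧ ¬ Good a b e c κ δ T n)).card : ℝ) +
      (((Icc 1 N).filter (fun n : ℕ => Admissible a b e c n ∧ ¬ Represented a b e c n)).card : ℝ) := by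
    exact_mod_cast h7
  linarith

end Pool.Agent.Results.MP_0da313_nt.AlmostAllLines
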