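import Pool.Agent.N728.QG.All2

set_option autoImplicit false

/-!
# The number of `x + y = n` with `x y + c` prime, for almost all `n`

Fix an integer `c ≠ 0`. For every `ε > 0` there is `κ > 0` such that for every `δ > 0` and all large `N`: all but at most
`ε N` of the `n ≤ N` without obstruction modulo 2 (`n` even or `c` odd) satisfy: the constant `K` of Hardy and Littlewood
for the polynomial `x (n - x) + c` exists, `K ≥ κ`, and

`|#{(x, y) : x, y ≥ 1, x + y = n, x y + c prime} - K n / log n| ≤ δ n / log n`.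

Proof (`Agent/N728/QL`, `Agent/N728/QG`, `Agent/N728/QN`): `u = x`, `v = n - x`, so `n = u + v`. Bilinear sums over
`u v + c` with an arbitrary bounded function of `u + v` do not change if a divisor of `u v`, composed of primes of a
suitable range, is moved from `u` to `v`; by the multiplication table phenomenon of Erdős few multiplicative windows
contain such a divisor, and the off-diagonal terms are bounded by two applications of the Cauchy-Schwarz inequality and
the fundamental lemma of the sieve (functions with mean zero on the cells (residue class and block)). For the functions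
constant on the cells the range is shifted, by moving divisors again, to `u ≤ v / (log v)^C`, where the theorem of
Bombieri and Vinogradov at the sharp level applies.
-/

namespace Pool.Agent.Results.MP_0da313_nt.AlmostAllSums

open Finset Filter Topology

/-- The products which define the constant `C(A, β, c)` of Hardy and Littlewood for `A x² + β x + c`, over the primes
`p ≤ z` (`jacobiSym Δ p` is the Legendre symbol). -/
noncomputable def partialC (A β c : ℤ) (z : ℕ) : ℝ :=
  (if Odd (A + β) then 1 / 2 else 1) *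
    (∏ p ∈ (Icc 3 z).filter (fun p : ℕ => p.Prime ∧ (p : ℤ) ∣ A ∧ (p : ℤ) ∣ β), (p : ℝ) / (p - 1)) *
    ∏ p ∈ (Icc 3 z).filter (fun p : ℕ => p.Prime ∧ ¬ (p : ℤ) ∣ A),
      (1 - (jacobiSym (β ^ 2 - 4 * A * c) p : ℝ) / (p - 1))

/-- `K = C(A, β, c)`: the products over the primes, in increasing order, converge to `K`. -/
def IsC (A β c : ℤ) (K : ℝ) : Prop := Tendsto (partialC A β c) atTop (𝓝 K)

/-- The number of the pairs `x, y ≥ 1` with `x + y = n` and `x y + c` a (positive) prime. -/
def rep (c : ℤ) (n : ℕ) : ℕ :=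
  ((Icc 1 n ×ˢ Icc 1 n).filter (fun q : ℕ × ℕ => q.1 + q.2 = n ∧ ((q.1 : ℤ) * q.2 + c).toNat.Prime)).card

/-- The conclusion for one `n`. -/
def Good (c : ℤ) (κ δ : ℝ) (n : ℕ) : Prop :=
  ∃ K : ℝ, IsC (-1) n c K ∧ κ ≤ K ∧ |(rep c n : ℝ) - K * (n / Real.log n)| ≤ δ * (n / Real.log n)

open Classical in
/-- The number of the `n ≤ N` without obstruction modulo 2 (`n` even or `c` odd) for which the conclusion fails. -/
noncomputable def exceptions (c : ℤ) (κ δ : ℝ) (N : ℕ) : ℕ :=
  ((Icc 1 N).filter (fun n : ℕ => (Even n ∨ Odd c) ∧ ¬ Good c κ δ n)).card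

lemma rep_eq (c : ℤ) (n : ℕ) : rep c n = Pool.Agent.N728.QG.rxy c n := by
  unfold rep Pool.Agent.N728.QG.rxy
  refine card_bij' (fun q _ => q.1) (fun x _ => (x, n - x)) ?_ ?_ ?_ ?_
  · rintro ⟨x, y⟩ h
    rw [mem_filter, mem_product, mem_Icc, mem_Icc] at h
    obtain ⟨⟨h1, h2⟩, h3, h4⟩ := h
    simp only at h1 h2 h3 h4
    rw [mem_filter, mem_Ico]
    refine ⟨⟨h1.1, by omega⟩, ?_⟩
    have h5 : (y : ℤ) = (n : ℤ) - x := by omega
    rw [← h5]
    exact h4
  · intro x h
    rw [mem_filter, mem_Ico] at h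
    obtain ⟨⟨h1, h2⟩, h3⟩ := h
    rw [mem_filter, mem_product, mem_Icc, mem_Icc]
    refine ⟨⟨⟨h1, by simp only; omega⟩, ⟨by simp only; omega, by simp only; omega⟩⟩, by simp only; omega, ?_⟩
    have h5 : ((n - x : ℕ) : ℤ) = (n : ℤ) - x := by omega
    simp only
    rw [h5]
    exact h3
  · rintro ⟨x, y⟩ h
    rw [mem_filter] at h
    have h1 := h.2.1
    simp only at h1
    simp only [Prod.mk.injEq, true_and]
    omega
  · intro x _
    rfl

/-- **Theorem.** -/
theorem result (c : ℤ) (hc : c ≠ 0) :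
    ∀ ε : ℝ, 0 < ε → ∃ κ : ℝ, 0 < κ ∧ ∀ δ : ℝ, 0 < δ → ∃ N₀ : ℕ, ∀ N : ℕ, N₀ ≤ N →
      (exceptions c κ δ N : ℝ) ≤ ε * N := by
  classical
  intro ε hε
  obtain ⟨κ, hκ, h⟩ := Pool.Agent.N728.QG.finalXY c hc ε hε
  refine ⟨κ, hκ, fun δ hδ => ?_⟩
  obtain ⟨N₀, h⟩ := h δ hδ
  refine ⟨N₀, fun N hN => ?_⟩
  refine le_trans (le_of_eq ?_) (h N hN)
  unfold exceptions Good
  simp only [rep_eq]
  congr!

end Pool.Agent.Results.MP_0da313_nt.AlmostAllSums
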