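import Pool.Agent.N826.IT.F
import Pool.Agent.N733.TG.E
import Pool.Agent.Results.MP_0da313_nt.LinearPairsEveryModulus

/-!
# Prime values along `x + y = n` along the orbits of Euler's function

We consider the admissible families `f₁ = (u + 2) x + u y + a`, `f₂ = v x + (v + 2) y + b` (`u`, `v ≥ 0` even, `a`, `b`
odd) and the integers `n = α f(φ_k m) + h`, where `φ_k` is the `k`-th iterate of Euler's function and `f` is a positive
multiplicative function of at most polynomial growth with `f p = p + c` for all large primes `p` (the identity, Euler's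
function, the sum of the divisors). There is a function `κ(m)` tending to infinity such that for almost all `m` ALL these
integers `n` with `k, α, |h| ≤ κ(m)` are good for ALL these families with `u, v, |a|, |b| ≤ κ(m)` (with the exception of
the degenerate case `(u + v + 2) h + a + b = 0`): `n = x + y` with `x, y > 0` and both `|f₁(x, y)|`, `|f₂(x, y)|` prime, and
the number of these `x` in windows of `[0, n]` is the predicted one, with a relative error of at most `1 / (κ(m) + 1)`.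

Proof. The iterates of `φ` are not multiplicative, their values are taken with large multiplicities, and they form a very
thin set (`φ_k(m)` is divisible by large powers of all small primes for almost all `m`). The classification of the integers
`m` by the smooth parts of the shifted primes which occur along the orbit is in `N826/IT` (`densk`); in a class the integer
`α f(φ_k m) + h` lies in the class of `h` modulo a small modulus, and the theorem of the starting files on this problem in the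
residue classes of every modulus (`LinearPairsEveryModulus`) is applied.
-/

set_option autoImplicit false

namespace Pool.Agent.Results.MP_0da313_nt.IteratedTotients

open Finset Filter Topology
open Pool.Agent.Results.MP_0da313_nt.LinearPairsEveryModulus (Admissible family Good exceptional)

/-- A positive multiplicative function of at most polynomial growth with `f p = p + c` for all large primes `p`. -/
structure Shifted (f : ℕ → ℕ) (c : ℤ) : Prop where
  mul : ∀ m n : ℕ, Nat.Coprime m n → f (m * n) = f m * f n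
  pos : ∀ m : ℕ, 1 ≤ m → 1 ≤ f m
  growth : ∃ C D : ℕ, ∀ m : ℕ, 1 ≤ m → f m ≤ C * m ^ D
  prime : ∃ P : ℕ, ∀ p : ℕ, P ≤ p → p.Prime → (f p : ℤ) = p + c

open Classical in
/-- The proportion of the positive integers `m ≤ N` without the property `P` tends to `0`. -/
def AlmostAll (P : ℕ → Prop) : Prop :=
  Tendsto (fun N : ℕ => (((Icc 1 N).filter (fun m => ¬ P m)).card : ℝ) / N) atTop (𝓝 0)

theorem good_mono {ε ε' : ℝ} {W A : ℕ} (hε : ε ≤ ε') (hWA : W ≤ A) {u v : ℕ} {a b : ℤ} {n : ℕ} (hn : 3 ≤ n)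
    (h : Good ε A u v a b n) : Good ε' W u v a b n := by
  have hn3 : (3 : ℝ) ≤ n := by exact_mod_cast hn
  have hL1 : 1 ≤ Real.log n := by
    rw [Real.le_log_iff_exp_le (by linarith)]
    have := Real.exp_one_lt_d9
    linarith
  refine ⟨h.1, fun y₁ y₂ h12 hy hlen => ?_⟩
  refine (h.2 y₁ y₂ h12 hy (le_trans ?_ hlen)).trans (mul_le_mul_of_nonneg_right hε ?_)
  · apply div_le_div_of_nonneg_left (by linarith) (by positivity)
    exact pow_le_pow_right₀ hL1 hWA
  · have hs := Pool.Agent.W93.GB.one_le_sing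
      (Pool.Agent.Results.MP_0da313_nt.LinearPairsEveryModulus.M u v a b n)
    have h2 : (0 : ℝ) ≤ (y₂ : ℝ) - y₁ := by
      have : (y₁ : ℝ) < y₂ := by exact_mod_cast h12
      linarith
    have h3 : (0 : ℝ) ≤ Pool.Agent.H560R3.GB.sing
      (Pool.Agent.Results.MP_0da313_nt.LinearPairsEveryModulus.M u v a b n) := by linarith
    positivity

/-- the exceptional set in the classes of `h` -/
theorem cb (u v : ℕ) (hu : 2 ∣ u) (hv : 2 ∣ v) (a b : ℤ) (ha : Odd a) (hb : Odd b) (h : ℤ)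
    (hne : ((u : ℤ) + v + 2) * h + a + b ≠ 0) (ε : ℝ) (hε : 0 < ε) (W A : ℕ) :
    Pool.Agent.N733.TG.CB h (fun n => n < 3 ∨ Good ε W u v a b n) A := by
  obtain ⟨X₀, hX₀⟩ := (Pool.Agent.Results.MP_0da313_nt.LinearPairsEveryModulus.result u v hu hv a b ha hb).2 ε hε
    (1 / 12) (by norm_num) (W + A) 1
  have hlog := (Real.tendsto_log_atTop.comp (tendsto_natCast_atTop_atTop (R := ℝ))).eventually_ge_atTop
    ((((u : ℤ) + v + 2) * h + a + b).natAbs + 1 : ℝ)
  rw [eventually_atTop] at hlog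
  obtain ⟨X₁, hX₁⟩ := hlog
  refine ⟨max X₀ X₁, fun X hX q hq hqX S hS => ?_⟩
  have h1 := hX₁ X ((le_max_right _ _).trans hX)
  simp only [Function.comp] at h1
  have hgcd : (Int.gcd (((u : ℤ) + v + 2) * h + a + b) q : ℝ) ≤ Real.log X ^ 1 := by
    rw [pow_one]
    refine le_trans ?_ (by linarith : ((((u : ℤ) + v + 2) * h + a + b).natAbs : ℝ) ≤ Real.log X)
    have : Int.gcd (((u : ℤ) + v + 2) * h + a + b) q ≤ (((u : ℤ) + v + 2) * h + a + b).natAbs :=
      Nat.le_of_dvd (Int.natAbs_pos.2 hne) (Nat.gcd_dvd_left _ _)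
    exact_mod_cast this
  have h2 := hX₀ X ((le_max_left _ _).trans hX) q hq (by
    rw [show (2 / 3 - 1 / 12 : ℝ) = 7 / 12 by norm_num]
    exact hqX) h hgcd
  have hfin : (exceptional ε (W + A) u v a b X q h).Finite :=
    (finite_toSet (Icc 1 X)).subset (fun n hn => by
      rw [mem_coe, mem_Icc]
      exact ⟨hn.1, hn.2.1⟩)
  have h3 : S.card ≤ (exceptional ε (W + A) u v a b X q h).ncard := by
    rw [← Set.ncard_coe_finset]
    apply Set.ncard_le_ncard _ hfin
    intro n hn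
    obtain ⟨e1, e2, e3, e4⟩ := hS n hn
    push Not at e4
    exact ⟨e1, e2, e3, fun hg => e4.2 (good_mono le_rfl (Nat.le_add_right W A) e4.1 hg)⟩
  have h4 : (S.card : ℝ) ≤ ((exceptional ε (W + A) u v a b X q h).ncard : ℝ) := by exact_mod_cast h3
  refine h4.trans (h2.trans ?_)
  have hl1 : 1 ≤ Real.log X := by
    have : (0 : ℝ) ≤ (((u : ℤ) + v + 2) * h + a + b).natAbs := Nat.cast_nonneg _
    linarith
  have hq0 : (0 : ℝ) < q := by exact_mod_cast hq
  apply div_le_div_of_nonneg_left (Nat.cast_nonneg X) (by positivity)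
  exact mul_le_mul_of_nonneg_left (pow_le_pow_right₀ hl1 (Nat.le_add_left A W)) hq0.le

theorem sm_of {f : ℕ → ℕ} {c : ℤ} (hf : Shifted f c) : Pool.Agent.N733.TG.SM f c :=
  ⟨hf.mul, hf.pos, hf.growth, hf.prime⟩

/-- large values: `n < 3` is rare in all classes -/
theorem cb3 (h : ℤ) (A : ℕ) : Pool.Agent.N733.TG.CB h (fun n => 3 ≤ n) A := by
  have h2 := (isLittleO_log_rpow_rpow_atTop (s := (5 / 12 : ℝ)) (A : ℝ) (by norm_num)).bound
    (c := 1 / 2) (by positivity)
  have h3 := (tendsto_natCast_atTop_atTop (R := ℝ)).eventually h2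
  obtain ⟨X₀, hX₀⟩ := eventually_atTop.1 h3
  refine ⟨max X₀ 3, fun X hX q hq hqX S hS => ?_⟩
  have h4 := hX₀ X ((le_max_left _ _).trans hX)
  have hX3 : (3 : ℝ) ≤ X := by exact_mod_cast (le_max_right _ _).trans hX
  have hX0 : (0 : ℝ) < X := by linarith
  have hl : 0 ≤ Real.log X := Real.log_nonneg (by linarith)
  rw [Real.norm_of_nonneg (by positivity), Real.norm_of_nonneg (by positivity), Real.rpow_natCast] at h4
  have hq0 : (0 : ℝ) < q := by exact_mod_cast hq
  have hl1 : 1 ≤ Real.log X := by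
    rw [Real.le_log_iff_exp_le (by linarith)]
    have := Real.exp_one_lt_d9
    linarith
  have hS2 : S.card ≤ 2 := by
    have : S ⊆ Icc 1 2 := by
      intro n hn
      obtain ⟨e1, _, _, e4⟩ := hS n hn
      rw [mem_Icc]
      omega
    exact (card_le_card this).trans (by simp)
  have hS2' : (S.card : ℝ) ≤ 2 := by exact_mod_cast hS2
  refine hS2'.trans ?_
  rw [le_div_iff₀ (by positivity)]
  calc 2 * (q * Real.log X ^ A) ≤ 2 * ((X : ℝ) ^ (7 / 12 : ℝ) * (1 / 2 * (X : ℝ) ^ (5 / 12 : ℝ))) := by gcongr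
    _ = (X : ℝ) ^ (7 / 12 : ℝ) * (X : ℝ) ^ (5 / 12 : ℝ) := by ring
    _ = X := by
      rw [← Real.rpow_add hX0]
      norm_num

open Classical in
theorem almostAll_iff (P : ℕ → Prop) : AlmostAll P ↔ ∀ ε : ℝ, 0 < ε → ∃ N₀ : ℕ, ∀ N : ℕ, N₀ ≤ N →
    (((Icc 1 N).filter (fun m => ¬ P m)).card : ℝ) ≤ ε * N := by
  unfold AlmostAll
  rw [Metric.tendsto_atTop]
  constructor
  · intro h ε hε
    obtain ⟨N₀, hN₀⟩ := h ε hε
    refine ⟨max N₀ 1, fun N hN => ?_⟩
    have h1 := hN₀ N (le_trans (le_max_left _ _) hN)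
    have h2 : (0 : ℝ) < N := by exact_mod_cast (le_trans (le_max_right N₀ 1) hN)
    rw [Real.dist_eq, sub_zero, abs_of_nonneg (by positivity), div_lt_iff₀ h2] at h1
    exact h1.le
  · intro h ε hε
    obtain ⟨N₀, hN₀⟩ := h (ε / 2) (by positivity)
    refine ⟨max N₀ 1, fun N hN => ?_⟩
    have h1 := hN₀ N (le_trans (le_max_left _ _) hN)
    have h2 : (0 : ℝ) < N := by exact_mod_cast (le_trans (le_max_right N₀ 1) hN)
    rw [Real.dist_eq, sub_zero, abs_of_nonneg (by positivity), div_lt_iff₀ h2]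
    nlinarith

theorem card_mono' {N : ℕ} {P Q : ℕ → Prop} {dP : DecidablePred P} {dQ : DecidablePred Q} (h : ∀ m, P m → Q m) :
    (@Finset.filter _ P dP (Icc 1 N)).card ≤ (@Finset.filter _ Q dQ (Icc 1 N)).card :=
  card_le_card (fun m hm => Finset.mem_filter.2 ⟨(Finset.mem_filter.1 hm).1, h m (Finset.mem_filter.1 hm).2⟩)

theorem almostAll_mono {P Q : ℕ → Prop} (hP : AlmostAll P) (h : ∀ m, P m → Q m) : AlmostAll Q := by
  classical
  rw [almostAll_iff] at *
  intro ε hε
  obtain ⟨N₀, h₀⟩ := hP ε hε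
  refine ⟨N₀, fun N hN => le_trans (Nat.cast_le.2 (card_mono' ?_)) (h₀ N hN)⟩
  intro m hm h1
  exact hm (h m h1)

theorem almostAll_true {P : ℕ → Prop} (h : ∀ m, P m) : AlmostAll P := by
  classical
  rw [almostAll_iff]
  intro ε hε
  refine ⟨0, fun N _ => ?_⟩
  have : (Icc 1 N).filter (fun m => ¬ P m) = ∅ := by
    rw [filter_eq_empty_iff]
    intro m _ h1
    exact h1 (h m)
  rw [this]
  simp only [card_empty, Nat.cast_zero]
  positivity

theorem almostAll_and {P Q : ℕ → Prop} (hP : AlmostAll P) (hQ : AlmostAll Q) :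
    AlmostAll (fun m => P m ∧ Q m) := by
  classical
  rw [almostAll_iff] at *
  intro ε hε
  obtain ⟨N₁, h₁⟩ := hP (ε / 2) (by positivity)
  obtain ⟨N₂, h₂⟩ := hQ (ε / 2) (by positivity)
  refine ⟨max N₁ N₂, fun N hN => ?_⟩
  have b1 : (((Icc 1 N).filter (fun m => ¬ P m)).card : ℝ) ≤ ε / 2 * N :=
    le_trans (Nat.cast_le.2 (card_mono' fun m hm => hm)) (h₁ N (le_trans (le_max_left _ _) hN))
  have b2 : (((Icc 1 N).filter (fun m => ¬ Q m)).card : ℝ) ≤ ε / 2 * N :=
    le_trans (Nat.cast_le.2 (card_mono' fun m hm => hm)) (h₂ N (le_trans (le_max_right _ _) hN))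
  have hsub : (Icc 1 N).filter (fun m => ¬ (P m ∧ Q m)) ⊆
      (Icc 1 N).filter (fun m => ¬ P m) ∪ (Icc 1 N).filter (fun m => ¬ Q m) := by
    intro m hm
    rw [mem_filter] at hm
    rw [mem_union, mem_filter, mem_filter]
    by_cases h1 : P m
    · exact Or.inr ⟨hm.1, fun h2 => hm.2 ⟨h1, h2⟩⟩
    · exact Or.inl ⟨hm.1, h1⟩
  have hc := (card_le_card hsub).trans (card_union_le _ _)
  have hc' : (((Icc 1 N).filter (fun m => ¬ (P m ∧ Q m))).card : ℝ) ≤
      (((Icc 1 N).filter (fun m => ¬ P m)).card : ℝ) + ((Icc 1 N).filter (fun m => ¬ Q m)).card := by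
    exact_mod_cast hc
  refine le_trans (Nat.cast_le.2 (card_mono' fun m hm => hm)) (hc'.trans ?_)
  linarith

theorem almostAll_finset {ι : Type*} (s : Finset ι) {P : ι → ℕ → Prop} (h : ∀ i ∈ s, AlmostAll (P i)) :
    AlmostAll (fun m => ∀ i ∈ s, P i m) := by
  classical
  induction s using Finset.induction_on with
  | empty => exact almostAll_true (fun m i hi => absurd hi (notMem_empty i))
  | insert i s _ ih =>
    refine almostAll_mono (almostAll_and (h i (mem_insert_self i s))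
      (ih (fun j hj => h j (mem_insert_of_mem hj)))) (fun m hm j hj => ?_)
    rcases mem_insert.1 hj with rfl | hj
    · exact hm.1
    · exact hm.2 j hj

/-- diagonal argument -/
theorem diagonal {P : ℕ → ℕ → Prop} (hmono : ∀ i j m, i ≤ j → P j m → P i m) (h : ∀ j, AlmostAll (P j)) :
    ∃ κ : ℕ → ℕ, Tendsto κ atTop atTop ∧ AlmostAll (fun m => P (κ m) m) := by
  classical
  have h1 : ∀ j : ℕ, ∃ N₀ : ℕ, ∀ N : ℕ, N₀ ≤ N →
      (((Icc 1 N).filter (fun m => ¬ P j m)).card : ℝ) ≤ 1 / ((j : ℝ) + 1) * N := by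
    intro j
    have h2 := (almostAll_iff (P j)).1 (h j) (1 / ((j : ℝ) + 1)) (by positivity)
    obtain ⟨N₀, hN₀⟩ := h2
    exact ⟨N₀, fun N hN => le_trans (Nat.cast_le.2 (card_mono' fun m hm => hm)) (hN₀ N hN)⟩
  choose A hA using h1
  set κ : ℕ → ℕ := fun m => Nat.findGreatest (fun j => A j ≤ m) m with hκ
  have hκmono : Monotone κ := by
    intro m n hmn
    rw [hκ]
    simp only
    exact Nat.findGreatest_mono (fun j hj => le_trans hj hmn) hmn
  have hκge : ∀ j : ℕ, ∀ m, max (A j) j ≤ m → j ≤ κ m := by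
    intro j m hm
    rw [hκ]
    simp only
    exact Nat.le_findGreatest (le_trans (le_max_right _ _) hm) (le_trans (le_max_left _ _) hm)
  have hκt : Tendsto κ atTop atTop := by
    rw [tendsto_atTop_atTop]
    intro j
    exact ⟨max (A j) j, fun m hm => hκge j m hm⟩
  refine ⟨κ, hκt, ?_⟩
  rw [almostAll_iff]
  intro ε hε
  obtain ⟨j, hj⟩ := exists_nat_gt (1 / ε)
  refine ⟨max (max (A (j + 1)) (j + 1)) 1, fun N hN => ?_⟩
  have b1 : j + 1 ≤ κ N := hκge (j + 1) N (le_trans (le_max_left _ _) hN)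
  have b2 : A (κ N) ≤ N := by
    have h3 : κ N ≠ 0 := by omega
    exact Nat.findGreatest_of_ne_zero (P := fun j => A j ≤ N) (n := N) rfl h3
  have h4 := hA (κ N) N b2
  have hsub : (Icc 1 N).filter (fun m => ¬ P (κ m) m) ⊆ (Icc 1 N).filter (fun m => ¬ P (κ N) m) := by
    intro m hm
    rw [mem_filter, mem_Icc] at hm
    rw [mem_filter, mem_Icc]
    exact ⟨hm.1, fun h5 => hm.2 (hmono _ _ m (hκmono hm.1.2) h5)⟩
  have h5 : (((Icc 1 N).filter (fun m => ¬ P (κ m) m)).card : ℝ) ≤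
      (((Icc 1 N).filter (fun m => ¬ P (κ N) m)).card : ℝ) := by exact_mod_cast card_le_card hsub
  have h6 : 1 / (((κ N : ℕ) : ℝ) + 1) ≤ ε := by
    rw [div_le_iff₀ (by positivity)]
    rw [div_lt_iff₀ hε] at hj
    have : (j : ℝ) + 1 ≤ ((κ N : ℕ) : ℝ) := by exact_mod_cast b1
    nlinarith
  have hN0 : (0 : ℝ) ≤ N := Nat.cast_nonneg _
  refine le_trans (Nat.cast_le.2 (card_mono' fun m hm => hm)) (h5.trans (h4.trans ?_))
  exact mul_le_mul_of_nonneg_right h6 hN0

/-- iterates of `φ` and a property which is rarely violated in the classes of `h` -/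
theorem denskα {f : ℕ → ℕ} {c : ℤ} (hf : Shifted f c) (α : ℕ) (hα : 1 ≤ α) (h : ℤ) (Q : ℕ → Prop)
    (hQ : ∀ A, Pool.Agent.N733.TG.CB h Q A) (k : ℕ) :
    AlmostAll (fun m => 0 < (α : ℤ) * f (Nat.totient^[k] m) + h ∧
      Q ((α : ℤ) * f (Nat.totient^[k] m) + h).toNat) := by
  classical
  rw [almostAll_iff]
  intro δ hδ
  obtain ⟨N₀, h0⟩ := Pool.Agent.N826.IT.densk (sm_of hf) 1 _ (Pool.Agent.N733.TG.eb_of α hα h Q hQ) k δ hδ
  refine ⟨N₀, fun N hN => le_trans (Nat.cast_le.2 (card_mono' ?_)) (h0 N hN)⟩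
  intro m hm h1
  refine hm ?_
  obtain ⟨e1, e2, e3⟩ := h1
  rw [Int.toNat_of_nonneg e1.le] at e2 e3
  rw [add_sub_cancel_right] at e2 e3
  exact ⟨e2, e3⟩

theorem general (u v : ℕ) (hu : 2 ∣ u) (hv : 2 ∣ v) (a b : ℤ) (ha : Odd a) (hb : Odd b) (f : ℕ → ℕ) (c : ℤ)
    (hf : Shifted f c) (α : ℕ) (hα : 1 ≤ α) (h : ℤ) (hne : ((u : ℤ) + v + 2) * h + a + b ≠ 0) (ε : ℝ) (hε : 0 < ε)
    (W k : ℕ) :
    AlmostAll (fun m => 3 ≤ (α : ℤ) * f (Nat.totient^[k] m) + h ∧
      Good ε W u v a b ((α : ℤ) * f (Nat.totient^[k] m) + h).toNat) := by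
  refine almostAll_mono (almostAll_and
    (denskα hf α hα h (fun n => n < 3 ∨ Good ε W u v a b n) (fun A => cb u v hu hv a b ha hb h hne ε hε W A) k)
    (denskα hf α hα h (fun n => 3 ≤ n) (fun A => cb3 h A) k)) (fun m hm => ?_)
  obtain ⟨⟨h1, h2⟩, ⟨h3, h4⟩⟩ := hm
  refine ⟨by omega, ?_⟩
  rcases h2 with h5 | h5
  · omega
  · exact h5

theorem shifted_totient : Shifted Nat.totient (-1) where
  mul := fun m n h => Nat.totient_mul h
  pos := fun m hm => Nat.totient_pos.2 hm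
  growth := ⟨1, 1, fun m _ => by rw [one_mul, pow_one]; exact Nat.totient_le m⟩
  prime := ⟨0, fun p _ hp => by
    rw [Nat.totient_prime hp]
    have := hp.pos
    omega⟩

theorem shifted_sigma : Shifted (fun m => ∑ d ∈ m.divisors, d) 1 where
  mul := fun m n h => by
    have := ArithmeticFunction.isMultiplicative_sigma (k := 1).map_mul_of_coprime h
    simpa [ArithmeticFunction.sigma_one_apply] using this
  pos := fun m hm => by
    calc 1 ≤ m := hm
      _ ≤ ∑ d ∈ m.divisors, d := single_le_sum (f := fun d => d) (fun _ _ => Nat.zero_le _)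
        (Nat.mem_divisors_self m (by omega))
  growth := ⟨1, 2, fun m hm => by
    calc ∑ d ∈ m.divisors, d ≤ ∑ d ∈ m.divisors, m := sum_le_sum (fun d hd => Nat.divisor_le hd)
      _ = m.divisors.card * m := by rw [sum_const, smul_eq_mul]
      _ ≤ m * m := Nat.mul_le_mul_right _ (Nat.card_divisors_le_self m)
      _ = 1 * m ^ 2 := by ring⟩
  prime := ⟨0, fun p _ hp => by
    rw [Nat.Prime.sum_divisors hp]
    push_cast
    ring⟩

theorem shifted_id : Shifted (fun m => m) 0 where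
  mul := fun m n _ => rfl
  pos := fun m hm => hm
  growth := ⟨1, 1, fun m _ => by rw [one_mul, pow_one]⟩
  prime := ⟨0, fun p _ _ => by rw [add_zero]⟩

/-- **All orbits of Euler's function, all families.** (1) For even `u, v ≥ 0` and odd `a, b` the family
`f₁ = (u + 2) x + u y + a`, `f₂ = v x + (v + 2) y + b` is admissible. (2) Let `f` be a positive multiplicative function of
at most polynomial growth with `f p = p + c` for all large primes `p`. There is a function `κ` tending to infinity such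
that for almost all `m`, with `j = κ m`, ALL integers `n = α f(φ_k m) + h` with `k ≤ j`, `1 ≤ α ≤ j`, `|h| ≤ j` are positive
and good for ALL families with `u, v, |a|, |b| ≤ j` such that `(u + v + 2) h + a + b ≠ 0`: `n` is `x + y` with `x, y > 0`
and `|f₁(x, y)|`, `|f₂(x, y)|` prime, and the number of such `x` in windows of a length of at least `n / (log n)^j` is the
predicted one up to the factor `1 ± 1 / (j + 1)`. (3) The identity, Euler's function and the sum of the divisors are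
examples of such functions `f`. -/
theorem result :
    (∀ (u v : ℕ) (a b : ℤ), 2 ∣ u → 2 ∣ v → Odd a → Odd b → Admissible (family u v a b)) ∧
    (∀ (f : ℕ → ℕ) (c : ℤ), Shifted f c → ∃ κ : ℕ → ℕ, Tendsto κ atTop atTop ∧
      AlmostAll (fun m => ∀ k u v α : ℕ, ∀ a b h : ℤ, k ≤ κ m → u ≤ κ m → v ≤ κ m → 1 ≤ α → α ≤ κ m →
        |a| ≤ κ m → |b| ≤ κ m → |h| ≤ κ m → 2 ∣ u → 2 ∣ v → Odd a → Odd b → ((u : ℤ) + v + 2) * h + a + b ≠ 0 →
        0 < (α : ℤ) * f (Nat.totient^[k] m) + h ∧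
        Good (1 / ((κ m : ℝ) + 1)) (κ m) u v a b ((α : ℤ) * f (Nat.totient^[k] m) + h).toNat)) ∧
    (Shifted (fun m => m) 0 ∧ Shifted Nat.totient (-1) ∧ Shifted (fun m => ∑ d ∈ m.divisors, d) 1) := by
  refine ⟨fun u v a b hu hv ha hb =>
    (Pool.Agent.Results.MP_0da313_nt.LinearPairsEveryModulus.result u v hu hv a b ha hb).1, fun f c hf => ?_,
    ⟨shifted_id, shifted_totient, shifted_sigma⟩⟩
  obtain ⟨κ, hκ, h⟩ := diagonal (P := fun j m => ∀ k u v α : ℕ, ∀ a b h : ℤ, k ≤ j → u ≤ j → v ≤ j → 1 ≤ α → α ≤ j →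
      |a| ≤ j → |b| ≤ j → |h| ≤ j → 2 ∣ u → 2 ∣ v → Odd a → Odd b → ((u : ℤ) + v + 2) * h + a + b ≠ 0 →
      3 ≤ (α : ℤ) * f (Nat.totient^[k] m) + h ∧
        Good (1 / ((j : ℝ) + 1)) j u v a b ((α : ℤ) * f (Nat.totient^[k] m) + h).toNat) (by
    intro i j m hij hP k u v α a b h hk hu hv hα1 hα ha hb hh hu2 hv2 hao hbo hne
    have hij' : (i : ℤ) ≤ j := by exact_mod_cast hij
    obtain ⟨h1, h2⟩ := hP k u v α a b h (hk.trans hij) (hu.trans hij) (hv.trans hij) hα1 (hα.trans hij)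
      (ha.trans hij') (hb.trans hij') (hh.trans hij') hu2 hv2 hao hbo hne
    refine ⟨h1, good_mono ?_ hij (by omega) h2⟩
    apply one_div_le_one_div_of_le (by positivity)
    have : (i : ℝ) ≤ j := by exact_mod_cast hij
    linarith) (by
    intro j
    have h0 := almostAll_finset ((range (j + 1) ×ˢ range (j + 1) ×ˢ range (j + 1) ×ˢ range (j + 1)) ×ˢ
        (Icc (-(j : ℤ)) j ×ˢ Icc (-(j : ℤ)) j ×ˢ Icc (-(j : ℤ)) j))
      (P := fun (x : (ℕ × ℕ × ℕ × ℕ) × (ℤ × ℤ × ℤ)) m =>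
        1 ≤ x.1.2.2.2 → 2 ∣ x.1.2.1 → 2 ∣ x.1.2.2.1 → Odd x.2.1 → Odd x.2.2.1 →
        ((x.1.2.1 : ℤ) + x.1.2.2.1 + 2) * x.2.2.2 + x.2.1 + x.2.2.1 ≠ 0 →
        3 ≤ (x.1.2.2.2 : ℤ) * f (Nat.totient^[x.1.1] m) + x.2.2.2 ∧
        Good (1 / ((j : ℝ) + 1)) j x.1.2.1 x.1.2.2.1 x.2.1 x.2.2.1
          ((x.1.2.2.2 : ℤ) * f (Nat.totient^[x.1.1] m) + x.2.2.2).toNat) (by
      intro x _
      by_cases hx : 1 ≤ x.1.2.2.2 ∧ 2 ∣ x.1.2.1 ∧ 2 ∣ x.1.2.2.1 ∧ Odd x.2.1 ∧ Odd x.2.2.1 ∧
          ((x.1.2.1 : ℤ) + x.1.2.2.1 + 2) * x.2.2.2 + x.2.1 + x.2.2.1 ≠ 0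
      · obtain ⟨g1, g2, g3, g4, g5, g6⟩ := hx
        exact almostAll_mono (general x.1.2.1 x.1.2.2.1 g2 g3 x.2.1 x.2.2.1 g4 g5 f c hf x.1.2.2.2 g1 x.2.2.2 g6
          (1 / ((j : ℝ) + 1)) (by positivity) j x.1.1) (fun m hm _ _ _ _ _ _ => hm)
      · exact almostAll_true (fun m g1 g2 g3 g4 g5 g6 => absurd ⟨g1, g2, g3, g4, g5, g6⟩ hx))
    refine almostAll_mono h0 (fun m hm k u v α a b h hk hu hv hα1 hα ha hb hh hu2 hv2 hao hbo hne => ?_)
    have h1 := hm ((k, u, v, α), (a, b, h)) (by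
      rw [abs_le] at ha hb hh
      simp only [mem_product, mem_range, mem_Icc]
      omega)
    exact h1 hα1 hu2 hv2 hao hbo hne)
  refine ⟨κ, hκ, almostAll_mono h (fun m hm k u v α a b h hk hu hv hα1 hα ha hb hh hu2 hv2 hao hbo hne => ?_)⟩
  obtain ⟨h1, h2⟩ := hm k u v α a b h hk hu hv hα1 hα ha hb hh hu2 hv2 hao hbo hne
  exact ⟨by omega, h2⟩

end Pool.Agent.Results.MP_0da313_nt.IteratedTotients
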