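import Mathlib
import Pool.Agent.N893.MC.Fin

set_option autoImplicit false

/-!
# The least `x` in the representations `n = x + y` with `|f(x, y)|` prime can be large

The polynomials `f(x, y) = x ^ k + 4 w (x + y) + 4 u + 2`, `k, w ≥ 1`, form admissible families (with one member):
`f(x, n - x) = x ^ k + 4 w n + 4 u + 2` is irreducible and has no fixed prime divisor, for all `n`. For each of
them every interval `(z, z + X]`, `X` large, contains an integer `n` such that `|f(x, y)|` is not a prime for any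
integers `x, y` with `x + y = n` and
`|x| ≤ c log X (log₂ X) ^ (d(k) + κ) (log₄ X) ^ κ / (log₃ X) ^ (2 κ)`, where `d(k)` is the number of divisors of
`k`, and `κ = 1` for odd `k`, `κ = 2` for even `k`.

Proof (`Pool/Agent/N893/MC`). Let `a = 4 w n + 4 u + 2`, `y = (log X) / 10`, `S` the primes in `(v', v]`,
`log v' = B log₂ y`, `log v = log y log₃ y / (2 (B + 2) log₂ y)`. Put `a ≡ -1` modulo the primes `p ≤ y` outside `S`:
they remove the `x` with `x ^ k ≡ 1 (mod p)`, which are `gcd (k, p - 1)` classes. If `x` is left, `x - 1` (and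
`x + 1`, if `k` is even) is smooth or has no prime factor in `S` either. So Selberg's sieve applies with
`gcd (k, p - 1)` classes for the small `p` outside `S` and with `κ` classes for `p` in `S`. For the primes of `S` a
greedy choice of `-a ≡ s ^ k` removes `gcd (k, p - 1)` classes again. Since `gcd (k, p - 1)` is `d(k)` on average,
`O(log X)` values are left; they are made composite by the sieve of the starting result
MP_3bc45c_nt.RecordGaps, in the form `H361R2.PA.assembleM`.
-/

namespace Pool.Agent.Results.MP_0da313_nt.LateLeastX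

open Finset Polynomial

/-- the polynomial `g_n(x) = f(x, n - x)` -/
noncomputable def line (f : MvPolynomial (Fin 2) ℤ) (n : ℤ) : Polynomial ℤ :=
  MvPolynomial.aeval ![X, C n - X] f

/-- the family with the single member `f` is admissible: for all large `n` the polynomial `f(x, n - x)` is
irreducible and no prime divides all its values -/
def Admissible (f : MvPolynomial (Fin 2) ℤ) : Prop :=
  ∃ N₀ : ℤ, ∀ n : ℤ, N₀ ≤ n → Irreducible (line f n) ∧
    ∀ p : ℕ, p.Prime → ∃ x : ℤ, ¬ (p : ℤ) ∣ (line f n).eval x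

/-- `x ^ k + 4 w (x + y) + 4 u + 2` -/
noncomputable def poly (k w : ℕ) (u : ℤ) : MvPolynomial (Fin 2) ℤ :=
  MvPolynomial.X 0 ^ k + MvPolynomial.C (4 * (w : ℤ)) * (MvPolynomial.X 0 + MvPolynomial.X 1) +
    MvPolynomial.C (4 * u + 2)

/-- `κ(k)`: `2` if `k` is even, `1` if `k` is odd -/
def kp (k : ℕ) : ℕ := if Even k then 2 else 1

/-- `log X (log₂ X) ^ (d(k) + κ(k)) (log₄ X) ^ κ(k) / (log₃ X) ^ (2 κ(k))` -/
noncomputable def F (k : ℕ) (X : ℝ) : ℝ :=
  Real.log X * (Real.log (Real.log X)) ^ (k.divisors.card + kp k) *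
    (Real.log (Real.log (Real.log (Real.log X)))) ^ (kp k) /
      (Real.log (Real.log (Real.log X))) ^ (2 * kp k)

lemma line_eq (k w : ℕ) (u n : ℤ) : line (poly k w u) n = X ^ k + C (4 * w * n + (4 * u + 2)) := by
  unfold line poly
  simp only [map_add, map_mul, map_pow, MvPolynomial.aeval_X, MvPolynomial.algHom_C]
  simp only [Matrix.cons_val_zero, Matrix.cons_val_one]
  have h : ∀ z : ℤ, (algebraMap ℤ (Polynomial ℤ)) z = C z := fun z => rfl
  simp only [h, map_add, map_mul]
  ring

lemma eval_eq (k w : ℕ) (u x y : ℤ) :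
    MvPolynomial.eval ![x, y] (poly k w u) = x ^ k + (4 * w * (x + y) + (4 * u + 2)) := by
  unfold poly
  simp only [map_add, map_mul, map_pow, MvPolynomial.eval_X, MvPolynomial.eval_C]
  simp only [Matrix.cons_val_zero, Matrix.cons_val_one]
  ring

theorem irr (k : ℕ) (hk : 1 ≤ k) (a : ℤ) (ha : (4 : ℤ) ∣ a - 2) : Irreducible (X ^ k + C a : Polynomial ℤ) := by
  have hP : (Ideal.span {(2 : ℤ)}).IsPrime := by
    rw [Ideal.span_singleton_prime two_ne_zero]
    exact Int.prime_two
  have h2a : (2 : ℤ) ∣ a := by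
    obtain ⟨j, hj⟩ := ha
    exact ⟨2 * j + 1, by linarith⟩
  have hmon : (X ^ k + C a : Polynomial ℤ).Monic := monic_X_pow_add_C a (by omega)
  have hE : (X ^ k + C a : Polynomial ℤ).IsEisensteinAt (Ideal.span {(2 : ℤ)}) := by
    refine ⟨?_, ?_, ?_⟩
    · rw [hmon.leadingCoeff, Ideal.mem_span_singleton]
      intro h
      have := Int.eq_one_of_dvd_one (by norm_num) h
      norm_num at this
    · intro m hm
      rw [natDegree_X_pow_add_C] at hm
      rw [Ideal.mem_span_singleton, coeff_add, coeff_X_pow, if_neg (by omega), zero_add, coeff_C]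
      split_ifs
      · exact h2a
      · exact dvd_zero _
    · rw [Ideal.span_singleton_pow, Ideal.mem_span_singleton, coeff_add, coeff_X_pow, if_neg (by omega), zero_add,
        coeff_C_zero]
      intro h
      obtain ⟨j, hj⟩ := ha
      obtain ⟨i, hi⟩ := h
      omega
  exact hE.irreducible hP hmon.isPrimitive (by rw [natDegree_X_pow_add_C]; omega)

lemma adm (k w : ℕ) (hk : 1 ≤ k) (u : ℤ) : Admissible (poly k w u) := by
  refine ⟨0, fun n _ => ?_⟩
  rw [line_eq]
  refine ⟨irr k hk _ ⟨w * n + u, by ring⟩, fun p hp => ?_⟩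
  by_contra hcon
  push Not at hcon
  have h7 := hcon 0
  have h8 := hcon 1
  rw [eval_add, eval_pow, eval_X, eval_C] at h7 h8
  rw [zero_pow (by omega), zero_add] at h7
  rw [one_pow] at h8
  have h9 := dvd_sub h8 h7
  rw [add_sub_cancel_right] at h9
  have h10 := Int.eq_one_of_dvd_one (by positivity) h9
  have h11 := hp.two_le
  omega

/-- For `k, w ≥ 1` and all `u` the family with the single member `f = x ^ k + 4 w (x + y) + 4 u + 2` is
admissible, and there is `c > 0` such that for all large `X` every interval `(z, z + X]` contains an integer `n`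
such that `f(x, y)` is not a prime (up to sign) for any integers `x, y` with `x + y = n` and
`|x| ≤ c * F k X`. -/
theorem result (k w : ℕ) (hk : 1 ≤ k) (hw : 1 ≤ w) (u : ℤ) :
    Admissible (poly k w u) ∧
    ∃ c : ℝ, 0 < c ∧ ∃ X₀ : ℝ, ∀ X : ℝ, X₀ ≤ X → ∀ z : ℤ,
      ∃ n : ℤ, (z : ℝ) < n ∧ (n : ℝ) ≤ z + X ∧
        ∀ x y : ℤ, x + y = n → |(x : ℝ)| ≤ c * F k X → ¬ Prime (MvPolynomial.eval ![x, y] (poly k w u)) := by
  refine ⟨adm k w hk u, ?_⟩
  obtain ⟨c, hc, X₀, h⟩ := Pool.Agent.N893.MC.mainN k hk (4 * w) (by omega) (4 * u + 2)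
  refine ⟨c, hc, max X₀ 0, fun X hX z => ?_⟩
  have hX0 : 0 ≤ X := (le_max_right _ _).trans hX
  obtain ⟨a, h1, h2, h3, h4⟩ := h X ((le_max_left _ _).trans hX) (4 * w * z + (4 * u + 2))
  obtain ⟨n, hn⟩ := h3
  have hw0 : (1 : ℝ) ≤ w := by exact_mod_cast hw
  have ha : a = 4 * w * n + (4 * u + 2) := by
    have e1 : (((4 * w : ℕ) : ℤ)) = 4 * (w : ℤ) := by push_cast; ring
    rw [e1] at hn
    linarith
  have haR : (a : ℝ) = 4 * w * n + (4 * u + 2) := by exact_mod_cast ha
  push_cast at h1 h2
  rw [haR] at h1 h2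
  refine ⟨n, ?_, ?_, fun x y hxy hx => ?_⟩
  · have h5 : (4 * (w : ℝ)) * z < 4 * w * n := by linarith
    exact lt_of_mul_lt_mul_left h5 (by positivity)
  · have h5 : (4 * (w : ℝ)) * n ≤ 4 * w * z + X := by linarith
    have h6 : (4 * (w : ℝ)) * n ≤ 4 * w * (z + X) := by nlinarith
    exact le_of_mul_le_mul_left h6 (by positivity)
  · rw [eval_eq, hxy, ← ha]
    exact h4 x hx

end Pool.Agent.Results.MP_0da313_nt.LateLeastX
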